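import Mathlib
import Pool.Agent.H15.TEmb5

namespace Pool.Agent.Results.MP_56ca39_gt.NoUniversal
open Pool.Agent.H15.TEmb Set Cardinal TopologicalSpace Topology Filter PiNat

universe u

/-- The weight of a space: the least cardinality of a base. -/
noncomputable def weight (X : Type u) [TopologicalSpace X] : Cardinal.{u} :=
  sInf {c | ∃ B : Set (Set X), IsTopologicalBasis B ∧ Cardinal.mk B = c}

/-- `Y`, sitting in `X` via `j`, is l-embedded: there is a linear extender `C_p(Y) → C_p(X)` that
is continuous for the topologies of pointwise convergence. -/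
def LEmb {Y : Type} {X : Type u} [TopologicalSpace Y] [TopologicalSpace X] (j : Y → X) : Prop :=
  ∃ φ : C(Y, ℝ) →ₗ[ℝ] C(X, ℝ), Continuous[cp Y, cp X] φ ∧ ∀ (f : C(Y, ℝ)) (y : Y), φ f (j y) = f y

theorem card_C (U : Type u) [TopologicalSpace U] [CompactSpace U] (h : weight U ≤ continuum) :
    Cardinal.mk C(U, ℝ) ≤ continuum := by
  obtain ⟨B, hB, hB'⟩ : weight U ∈ {c | ∃ B : Set (Set U), IsTopologicalBasis B ∧ Cardinal.mk B = c} :=
    csInf_mem ⟨_, _, isTopologicalBasis_opens, rfl⟩
  have key : ∀ (f : C(U, ℝ)) (q : ℚ × ℚ), ∃ V : List B, (q.1 : ℝ) < q.2 →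
      (∀ x, (q.2 : ℝ) ≤ f x → ∃ v ∈ V, x ∈ v.1) ∧ ∀ x, ∀ v ∈ V, x ∈ v.1 → (q.1 : ℝ) < f x := by
    intro f q
    by_cases hq : (q.1 : ℝ) < q.2
    · obtain ⟨t, ht⟩ := (isClosed_le continuous_const f.continuous :
        IsClosed {x | (q.2 : ℝ) ≤ f x}).isCompact.elim_finite_subcover
        (fun v : {v : B // ∀ x ∈ v.1, (q.1 : ℝ) < f x} => v.1.1) (fun v => hB.isOpen v.1.2)
        (fun x hx => by
          obtain ⟨v, h1, h2, h3⟩ := hB.exists_subset_of_mem_open (u := {x | (q.1 : ℝ) < f x})
            (lt_of_lt_of_le hq hx) (isOpen_lt continuous_const f.continuous)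
          exact mem_iUnion.2 ⟨⟨⟨v, h1⟩, h3⟩, h2⟩)
      refine ⟨t.toList.map Subtype.val, fun _ => ⟨fun x hx => ?_, fun x v hv hx => ?_⟩⟩
      · obtain ⟨v, h1, h2⟩ := mem_iUnion₂.1 (ht hx)
        exact ⟨v.1, List.mem_map_of_mem (Finset.mem_toList.2 h1), h2⟩
      · obtain ⟨w, -, rfl⟩ := List.mem_map.1 hv
        exact w.2 x hx
    · exact ⟨[], fun h => absurd h hq⟩
  choose V hV using key
  have h1 : ∀ f g, V f = V g → ∀ x, g x ≤ f x := by
    intro f g h x
    by_contra h2
    obtain ⟨q, h3, h4⟩ := exists_rat_btwn (not_le.1 h2)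
    obtain ⟨r, h5, h6⟩ := exists_rat_btwn h4
    obtain ⟨v, h7, h8⟩ := (hV g (q, r) h5).1 x h6.le
    exact lt_asymm h3 ((hV f (q, r) h5).2 x v (h ▸ h7) h8)
  have h2 : Function.Injective V := fun f g h =>
    ContinuousMap.ext fun x => le_antisymm (h1 g f h.symm x) (h1 f g h x)
  refine (mk_le_of_injective h2).trans ?_
  have h3 : Cardinal.mk (List B) ≤ continuum :=
    (mk_list_le_max _).trans (max_le aleph0_le_continuum (hB' ▸ h))
  rw [mk_arrow]
  simp only [mk_eq_aleph0, lift_aleph0, lift_uzero]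
  exact (power_le_power_right h3).trans continuum_power_aleph0.le

abbrev A : Type := Bool × ℕ
abbrev J : Type := List A ⊕ (ℕ → A)

open Classical in
noncomputable def e (X : Set (ℕ → Bool)) (n : List A) : J → Bool
  | Sum.inl s => decide (n <:+ s)
  | Sum.inr b => decide ((fun k => (b k).1) ∈ X ∧ ∃ k, n = res b k)

def K (X : Set (ℕ → Bool)) : Set (J → Bool) :=
  {x | (∀ s, x (Sum.inl s) = true → ∃ t, t <:+ s ∧ x = e X t) ∧ ∀ b b' k, x (Sum.inr b) = true →
    x (Sum.inr b') = true → b k ≠ b' k → x (Sum.inl (res b k)) = true}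

theorem res_suffix (b : ℕ → A) {j k : ℕ} (h : j ≤ k) : res b j <:+ res b k := by
  induction k, h using Nat.le_induction with
  | base => exact List.suffix_refl _
  | succ k _ ih => exact ih.trans (List.suffix_cons _ _)

theorem suffix_res (b : ℕ → A) {n : List A} {k : ℕ} (h : n <:+ res b k) : ∃ j, n = res b j := by
  induction k with
  | zero => exact ⟨0, List.suffix_nil.1 h⟩
  | succ k ih =>
    rcases List.suffix_cons_iff.1 h with h | h
    · exact ⟨k + 1, h⟩
    · exact ih h

theorem K_closed (X : Set (ℕ → Bool)) : IsClosed (K X) := by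
  have h : ∀ i : J, IsClopen {x : J → Bool | x i = true} := fun i =>
    (isClopen_discrete {true}).preimage (continuous_apply i)
  refine IsClosed.and ?_ ?_
  · rw [ofPred_forall]
    refine isClosed_iInter fun s => isClosed_imp (h _).isOpen (Set.Finite.isClosed ?_)
    refine ((List.finite_toSet s.tails).image (e X)).subset ?_
    rintro x ⟨t, h1, rfl⟩
    exact ⟨t, (List.mem_tails _ _).2 h1, rfl⟩
  · rw [ofPred_forall]
    refine isClosed_iInter fun b => ?_
    rw [ofPred_forall]
    refine isClosed_iInter fun b' => ?_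
    rw [ofPred_forall]
    exact isClosed_iInter fun k => isClosed_imp (h _).isOpen (isClosed_imp (h _).isOpen
      (isClosed_imp isOpen_const (h _).isClosed))

theorem e_mem (X : Set (ℕ → Bool)) (n : List A) : e X n ∈ K X := by
  classical
  refine ⟨fun s hs => ⟨n, of_decide_eq_true hs, rfl⟩, fun b b' k h1 h2 h3 => ?_⟩
  obtain ⟨-, j, rfl⟩ := of_decide_eq_true h1
  obtain ⟨-, j', h4⟩ := of_decide_eq_true h2
  obtain rfl : j = j' := by simpa using congrArg List.length h4
  refine decide_eq_true (res_suffix b ?_)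
  by_contra h5
  exact h3 (res_eq_res.1 h4 (not_le.1 h5))

theorem zero_mem (X : Set (ℕ → Bool)) : (fun _ => false) ∈ K X := ⟨by simp, by simp⟩

theorem bad (X : Set (ℕ → Bool)) (x : K X) (k : ℕ) : ∃ M : Finset ℕ, ∀ b : ℕ → A,
    (fun k => (b k).1) ∈ X → (b k).2 ∉ M → x.1 (Sum.inr b) = x.1 (Sum.inl (res b k)) := by
  classical
  by_cases h : ∃ n, x.1 = e X n
  · obtain ⟨n, h⟩ := h
    refine ⟨(n.map Prod.snd).toFinset, fun b hb h1 => ?_⟩
    rw [h]
    refine decide_eq_decide.2 ⟨?_, fun h2 => ⟨hb, suffix_res b h2⟩⟩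
    rintro ⟨-, j, rfl⟩
    refine res_suffix b (not_lt.1 fun h2 => h1 ?_)
    exact List.mem_toFinset.2 (List.mem_map_of_mem ((res_suffix b h2).subset List.mem_cons_self))
  · have h1 : ∀ s, x.1 (Sum.inl s) = false := fun s => by
      by_contra h1
      obtain ⟨t, -, h2⟩ := x.2.1 s (by simpa using h1)
      exact h ⟨t, h2⟩
    by_cases h2 : ∃ b', x.1 (Sum.inr b') = true
    · obtain ⟨b', h2⟩ := h2
      refine ⟨{(b' k).2}, fun b _ h3 => ?_⟩
      rw [h1]
      by_contra h4
      have := x.2.2 b b' k (by simpa using h4) h2 fun h5 => h3 (by simp [h5])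
      simp [h1] at this
    · refine ⟨∅, fun b _ _ => ?_⟩
      rw [h1]
      simpa using fun h3 => h2 ⟨b, h3⟩

theorem tend {X : Set (ℕ → Bool)} {b : ℕ → A} (hb : (fun k => (b k).1) ∉ X) (n : ℕ → List A)
    (hn : ∀ k, res b k <:+ n k) : Tendsto (fun k => (⟨e X (n k), e_mem X _⟩ : K X)) atTop
      (𝓝 ⟨_, zero_mem X⟩) := by
  classical
  refine tendsto_subtype_rng.2 (tendsto_pi_nhds.2 fun i => tendsto_const_nhds.congr' ?_)
  rcases i with s | b'
  · filter_upwards [eventually_gt_atTop s.length] with k hk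
    refine (decide_eq_false fun h => ?_).symm
    have := ((hn k).trans h).length_le
    rw [res_length] at this
    omega
  · by_cases h : b' = b
    · exact Eventually.of_forall fun k => (decide_eq_false fun h1 => hb (h ▸ h1.1)).symm
    · obtain ⟨m, hm⟩ := Function.ne_iff.1 h
      filter_upwards [eventually_gt_atTop m] with k hk
      refine (decide_eq_false ?_).symm
      rintro ⟨-, j, h1⟩
      obtain ⟨j', h2⟩ := suffix_res b' (h1 ▸ hn k)
      obtain rfl : k = j' := by simpa using congrArg List.length h2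
      exact hm (res_eq_res.1 h2 hk).symm

theorem weight_K (X : Set (ℕ → Bool)) : weight (K X) ≤ continuum := by
  have h : IsTopologicalBasis (range fun l : List (J × Bool) => {x : K X | ∀ p ∈ l, x.1 p.1 = p.2}) := by
    refine isTopologicalBasis_of_isOpen_of_nhds ?_ fun x U hx hU => ?_
    · rintro _ ⟨l, rfl⟩
      simp only [ofPred_forall]
      refine (List.finite_toSet l).isOpen_biInter fun p _ => ?_
      have h : Continuous fun x : K X => x.1 p.1 :=
        (continuous_apply p.1).comp continuous_subtype_val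
      exact (isOpen_discrete {p.2}).preimage h
    · obtain ⟨V, hV, rfl⟩ := isOpen_induced_iff.1 hU
      obtain ⟨T, v, h1, h2⟩ := isOpen_pi_iff.1 hV x.1 hx
      refine ⟨_, ⟨T.toList.map fun i => (i, x.1 i), rfl⟩, by simp, fun y hy => h2 fun i hi => ?_⟩
      rw [hy (i, x.1 i) (List.mem_map_of_mem (Finset.mem_toList.2 hi))]
      exact (h1 i hi).2
  have h1 : weight (K X) ≤ _ := csInf_le' ⟨_, h, rfl⟩
  refine h1.trans (mk_range_le.trans ((mk_list_le_max _).trans
    (max_le aleph0_le_continuum ?_)))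
  simp

noncomputable def co (X : Set (ℕ → Bool)) (i : J) : C(K X, ℝ) :=
  ⟨fun x => if x.1 i = true then 1 else 0, (continuous_of_discreteTopology
    (f := fun b : Bool => if b = true then (1 : ℝ) else 0)).comp
      ((continuous_apply i).comp continuous_subtype_val)⟩

theorem main (U : Type u) [TopologicalSpace U] [CompactSpace U] (h : weight U ≤ continuum) :
    ∃ X, ∀ j : K X → U, Continuous j → ¬ TEmb j := by
  classical
  by_contra h1
  push Not at h1
  choose j hj φ hφ hext using h1
  obtain ⟨X, X', x, hx, hx', h2⟩ : ∃ X X' x, x ∈ X ∧ x ∉ X' ∧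
      ∀ s, φ X (co X (Sum.inl s)) = φ X' (co X' (Sum.inl s)) := by
    have h2 : ¬ Function.Injective fun X s => φ X (co X (Sum.inl s)) := by
      intro h2
      have h3 := mk_le_of_injective (f := fun X : ULift.{u} _ => _) (h2.comp ULift.down_injective)
      rw [mk_arrow] at h3
      simp only [mk_eq_aleph0, lift_aleph0, lift_uzero] at h3
      have h4 := h3.trans ((power_le_power_right (card_C U h)).trans continuum_power_aleph0.le)
      simp at h4
      exact not_lt.2 h4 (cantor _)
    obtain ⟨X, X', h3, h4⟩ := Function.not_injective_iff.1 h2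
    by_cases h5 : X ⊆ X'
    · obtain ⟨x, h6, h7⟩ := not_subset.1 fun h6 : X' ⊆ X => h4 (h5.antisymm h6)
      exact ⟨X', X, x, h6, h7, fun s => (congrFun h3 s).symm⟩
    · obtain ⟨x, h6, h7⟩ := not_subset.1 h5
      exact ⟨X, X', x, h6, h7, congrFun h3⟩
  let p : List A → U := fun n => j X' ⟨e X' n, e_mem X' n⟩
  have h3 : ∀ s : List A, ∃ m : ℕ, ∀ b : ℕ → A, (fun k => (b k).1) ∈ X → res b s.length = s →
      (b s.length).2 = m → 3 / 4 ≤ φ X (co X (Sum.inr b)) (p s) ∧
        φ X (co X (Sum.inr b)) (p ((false, 0) :: s)) ≤ 1 / 4 := by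
    intro s
    obtain ⟨T, m, hT⟩ := cp_nhds (hφ X) (co X (Sum.inl s)) (p s) (show (0 : ℝ) < 1 / 4 by norm_num)
    obtain ⟨T', m', hT'⟩ := cp_nhds (hφ X) (co X (Sum.inl s)) (p ((false, 0) :: s))
      (show (0 : ℝ) < 1 / 4 by norm_num)
    choose M hM using fun y => bad X y s.length
    obtain ⟨a, ha⟩ := Infinite.exists_notMem_finset ((T ∪ T').biUnion M)
    refine ⟨a, fun b hb h3 h4 => ?_⟩
    have h5 : ∀ y ∈ T ∪ T', co X (Sum.inr b) y - co X (Sum.inl s) y = 0 := by
      intro y hy
      have := hM y b hb fun h5 => ha (Finset.mem_biUnion.2 ⟨y, hy, h4 ▸ h5⟩)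
      simp only [co, ContinuousMap.coe_mk, this, h3, sub_self]
    have h6 := abs_lt.1 (hT (co X (Sum.inr b)) fun y hy => by
      rw [h5 y (Finset.mem_union_left _ hy), abs_zero]; positivity)
    have h7 := abs_lt.1 (hT' (co X (Sum.inr b)) fun y hy => by
      rw [h5 y (Finset.mem_union_right _ hy), abs_zero]; positivity)
    rw [h2, hext] at h6 h7
    generalize φ X (co X (Sum.inr b)) = w at h6 h7 ⊢
    have h8 : ¬ (false, 0) :: s <:+ s := fun h8 => by simpa using h8.length_le
    simp only [co, e, ContinuousMap.coe_mk, List.suffix_refl, h8, decide_true, decide_false] at h6 h7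
    simp only [if_true, Bool.false_eq_true, if_false] at h6 h7
    exact ⟨by linarith [h6.1], by linarith [h7.2]⟩
  choose m hm using h3
  let s : ℕ → List A := fun k => Nat.rec [] (fun k s => (x k, m s) :: s) k
  let b : ℕ → A := fun k => (x k, m (s k))
  have h4 : ∀ k, res b k = s k := by
    intro k
    induction k with
    | zero => rfl
    | succ k ih => rw [res_succ, ih]
  have h5 := fun k => hm (res b k) b hx (by rw [res_length]) (by rw [res_length, h4])
  have h6 : Continuous fun y => φ X (co X (Sum.inr b)) (j X' y) := (φ X _).continuous.comp (hj X')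
  have h7 := ge_of_tendsto' ((h6.tendsto _).comp (tend (b := b) hx' (res b) fun k => List.suffix_refl _))
    fun k => (h5 k).1
  have h8 := le_of_tendsto' ((h6.tendsto _).comp (tend (b := b) hx' (fun k => (false, 0) :: res b k)
    fun k => List.suffix_cons _ _)) fun k => (h5 k).2
  linarith

/-- For every compact space `U` of weight at most continuum there is a compact space `K` of weight
at most continuum that can be neither t-embedded nor l-embedded in `U`. -/
theorem result : ∀ (U : Type u) [TopologicalSpace U] [CompactSpace U] [T2Space U],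
    weight U ≤ continuum → ∃ (Y : Type) (_ : TopologicalSpace Y), CompactSpace Y ∧ T2Space Y ∧
      weight Y ≤ continuum ∧ ∀ j : Y → U, IsEmbedding j → ¬ TEmb j ∧ ¬ LEmb j := by
  intro U _ _ _ h
  obtain ⟨X, hX⟩ := main U h
  exact ⟨K X, inferInstance, isCompact_iff_compactSpace.1 (K_closed X).isCompact, inferInstance,
    weight_K X, fun j hj => ⟨hX j hj.continuous, fun ⟨φ, h1⟩ => hX j hj.continuous ⟨φ, h1⟩⟩⟩

end Pool.Agent.Results.MP_56ca39_gt.NoUniversal
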